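import Pool.Agent.Helper43.Gm.Goals

/-!
Packet E2 (packing).
-/

set_option autoImplicit false

namespace Pool.Agent.Helper43.Gm.PkE2

open Finset Pool.Agent.Lead.Sh

theorem st_congr {κ κ' : ℕ → ℕ} {z : ℕ} (h : ∀ y, y < z → κ y = κ' y) (c : ℕ) :
    st κ c z = st κ' c z := by
  unfold st
  congr 1
  refine Finset.filter_congr fun y hy => ?_
  rw [h y (Finset.mem_range.1 hy)]

theorem mv_congr {κ κ' x x' : ℕ → ℕ} (ν : ℕ → ℕ) {z : ℕ} (h : ∀ y, y < z → κ y = κ' y)
    (hx : ∀ y, y < z → x y = x' y) (c : ℕ) : mv κ x ν c z = mv κ' x' ν c z := by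
  unfold mv
  refine Finset.filter_congr fun y hy => ?_
  rw [h y (Finset.mem_range.1 hy), hx y (Finset.mem_range.1 hy)]

theorem nn_congr {κ κ' x x' : ℕ → ℕ} (ν : ℕ → ℕ) {z : ℕ} (h : ∀ y, y ≤ z → κ y = κ' y)
    (hx : ∀ y, y ≤ z → x y = x' y) (c : ℕ) : nn κ x ν c z = nn κ' x' ν c z := by
  unfold nn
  rw [st_congr (fun y hy => h y hy.le), mv_congr ν (fun y hy => h y hy.le) (fun y hy => hx y hy.le),
    h z le_rfl, hx z le_rfl]

theorem nn_gt {κ x : ℕ → ℕ} (ν : ℕ → ℕ) {c z : ℕ} (h : κ z < c) : nn κ x ν c z = 0 := by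
  unfold nn
  rw [if_pos h]

theorem nn_eq {κ x : ℕ → ℕ} (ν : ℕ → ℕ) {c z : ℕ} (h : κ z = c) : nn κ x ν c z = x z := by
  unfold nn
  rw [if_neg (by omega), if_pos h]

theorem st_le (κ : ℕ → ℕ) (c z : ℕ) : st κ c z ≤ z := by
  unfold st
  exact (Finset.card_filter_le _ _).trans (by rw [Finset.card_range])

/-- An old point gives less in the next row. -/
theorem nn_drop {κ x : ℕ → ℕ} (ν : ℕ → ℕ) {c z : ℕ} (h : c < κ z) (h1 : κ z ≤ κ (z + 1)) :
    nn κ x ν c (z + 1) ≤ nn κ x ν c z - 1 := by
  have e1 : st κ c (z + 1) = st κ c z := by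
    unfold st
    rw [Finset.range_add_one, Finset.filter_insert, if_neg (by omega)]
  have e2 : (mv κ x ν c z).card ≤ (mv κ x ν c (z + 1)).card := by
    refine Finset.card_le_card ?_
    intro y hy
    unfold mv at hy ⊢
    rw [Finset.mem_filter, Finset.mem_range] at hy ⊢
    refine ⟨by omega, hy.2.1, hy.2.2.1, by omega⟩
  have e3 := st_le κ c z
  unfold nn
  rw [if_neg (by omega), if_neg (by omega), if_neg (by omega), if_neg (by omega), e1]
  omega

theorem sum_drop {κ x : ℕ → ℕ} (ν : ℕ → ℕ) {N z : ℕ} (h : N ≤ κ z) (h1 : κ z ≤ κ (z + 1)) :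
    ∑ c ∈ range N, nn κ x ν c (z + 1) ≤ ∑ c ∈ range N, nn κ x ν c z - 1 := by
  rcases Nat.eq_zero_or_pos (∑ c ∈ range N, nn κ x ν c z) with h2 | h2
  · rw [Finset.sum_eq_zero_iff] at h2
    have h3 : ∑ c ∈ range N, nn κ x ν c (z + 1) = 0 := by
      refine Finset.sum_eq_zero fun c hc => ?_
      have h4 := nn_drop (x := x) ν (c := c) (lt_of_lt_of_le (Finset.mem_range.1 hc) h) h1
      rw [h2 c hc] at h4
      omega
    omega
  · have h3 : ∃ c ∈ range N, nn κ x ν c z ≠ 0 := by
      by_contra h4
      push Not at h4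
      have := Finset.sum_eq_zero h4
      omega
    obtain ⟨c, hc, hc0⟩ := h3
    have h4 : ∑ c ∈ range N, nn κ x ν c (z + 1) < ∑ c ∈ range N, nn κ x ν c z := by
      refine Finset.sum_lt_sum (fun d hd => ?_) ⟨c, hc, ?_⟩
      · have := nn_drop (x := x) ν (c := d) (lt_of_lt_of_le (Finset.mem_range.1 hd) h) h1
        omega
      · have := nn_drop (x := x) ν (c := c) (lt_of_lt_of_le (Finset.mem_range.1 hc) h) h1
        omega
    omega

theorem ch_pos {ν : ℕ → ℕ} (h : ∀ c, 1 ≤ ν c) (c : ℕ) : 1 ≤ (ν c + 1).choose 2 := by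
  refine Nat.choose_pos ?_
  have := h c
  omega

theorem sum_SS {κ x : ℕ → ℕ} (ν : ℕ → ℕ) (N y : ℕ) :
    ∑ c ∈ range N, nn κ x ν c y ≤ SS κ x ν y := by
  unfold SS
  calc ∑ c ∈ range N, nn κ x ν c y ≤ ∑ c ∈ range (N + (κ y + 1)), nn κ x ν c y :=
        Finset.sum_le_sum_of_subset (Finset.range_subset_range.2 (by omega))
    _ = ∑ c ∈ range (κ y + 1), nn κ x ν c y := by
        symm
        refine Finset.sum_subset (Finset.range_subset_range.2 (by omega)) ?_
        intro c _ hc
        rw [Finset.mem_range] at hc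
        exact nn_gt ν (by omega)

theorem mono_le {M R : ℕ} {ν κ x : ℕ → ℕ} (h : Run M R ν κ x) {y z : ℕ} (hyz : y ≤ z) (hz : z < R) :
    κ y ≤ κ z := by
  induction z with
  | zero =>
    have : y = 0 := by omega
    rw [this]
  | succ z ih =>
    rcases Nat.eq_or_lt_of_le hyz with e | e
    · rw [e]
    · exact (ih (by omega) (by omega)).trans (h.mono z hz)

theorem x_zero {M R : ℕ} {ν κ x : ℕ → ℕ} (h : Run M R ν κ x) {y z : ℕ} (hyz : y ≤ z) (hz : z < R)
    (hk : κ y = κ z) (hx : x z = 0) : x y = 0 := by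
  induction z with
  | zero =>
    have : y = 0 := by omega
    rw [this]; exact hx
  | succ z ih =>
    rcases Nat.eq_or_lt_of_le hyz with e | e
    · rw [e]; exact hx
    · have h1 := mono_le h (show y ≤ z by omega) (by omega)
      have h2 := h.mono z hz
      have h3 : κ y = κ z := by omega
      refine ih (by omega) (by omega) h3 ?_
      by_contra h4
      have := h.inc z hz (Nat.pos_of_ne_zero h4) (by omega)
      omega

/-- The extension of the game after the row `J`. -/
theorem run_ext {M J : ℕ} {ν κ x : ℕ → ℕ} (h : Run M J ν κ x) (hJ : 1 ≤ J) (R K : ℕ)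
    (hK : K = κ (J - 1) + (if 0 < x (J - 1) then 1 else 0)) :
    Run M R ν (fun y => if y < J then κ y else K) (fun y => if y < J then x y else 0) := by
  refine ⟨h.ν1, h.νM, ?_, ?_, ?_⟩
  · intro y _
    by_cases h1 : y + 1 < J
    · simp only [if_pos h1, if_pos (show y < J by omega)]
      exact h.mono y h1
    · simp only [if_neg h1]
      by_cases h2 : y < J
      · simp only [if_pos h2]
        have : y = J - 1 := by omega
        rw [this, hK]
        omega
      · simp only [if_neg h2]
        exact le_rfl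
  · intro y _
    by_cases h2 : y < J
    · simp only [if_pos h2]
      exact h.le y h2
    · simp only [if_neg h2]
      exact Nat.zero_le _
  · intro y _ hx hk
    by_cases h1 : y + 1 < J
    · simp only [if_pos h1, if_pos (show y < J by omega)] at hx hk ⊢
      exact h.inc y h1 hx hk
    · by_cases h2 : y < J
      · simp only [if_pos h2, if_neg h1] at hx hk
        have e : y = J - 1 := by omega
        rw [e] at hx hk
        rw [if_pos hx] at hK
        omega
      · simp only [if_neg h2] at hx
        omega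

theorem goalE2 (hB : GoalB) (hC : GoalC) (hD : GoalD) : GoalE2 := by
  intro M R J ν ℓ hM hν1 hνM hJR hℓ hgood hend N hN
  rcases Nat.eq_zero_or_pos J with hJ0 | hJ
  · subst hJ0
    rw [Finset.range_zero, Finset.sum_empty] at hN
    have hN0 : N = 0 := by
      by_contra h
      have h1 : (ν 0 + 1).choose 2 ≤ ∑ c ∈ range N, (ν c + 1).choose 2 :=
        Finset.single_le_sum (f := fun c => (ν c + 1).choose 2) (fun i _ => Nat.zero_le _)
          (Finset.mem_range.2 (Nat.pos_of_ne_zero h))
      have := ch_pos hν1 0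
      omega
    subst hN0
    refine ⟨fun _ _ => 0, fun _ => 0, fun _ => 0, ?_, ?_, ?_⟩
    · intro c hc
      omega
    · intro y _
      simp
    · simp
  obtain ⟨κ, x, hrun, hSS, -, hpot⟩ := hD M J ν ℓ ∅ hM hν1 hνM (by simp)
    (fun y hy => hℓ y (by omega)) (fun y hy _ => hgood y hy)
  have hcl : cl J ∅ = 0 := by simp [cl]
  rw [hcl, Finset.card_empty] at hpot
  have hSSe : ∀ y < J, SS κ x ν y = ℓ y := by
    intro y hy
    have h1 : ∑ y ∈ range J, (SS κ x ν y - ℓ y) = 0 := by omega
    rw [Finset.sum_eq_zero_iff] at h1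
    have h2 := h1 y (Finset.mem_range.2 hy)
    have h3 := (hSS y hy).1
    omega
  obtain ⟨K, hK⟩ : ∃ K, K = κ (J - 1) + (if 0 < x (J - 1) then 1 else 0) := ⟨_, rfl⟩
  obtain ⟨κ', hκ'⟩ : ∃ κ' : ℕ → ℕ, κ' = fun y => if y < J then κ y else K := ⟨_, rfl⟩
  obtain ⟨x', hx'⟩ : ∃ x' : ℕ → ℕ, x' = fun y => if y < J then x y else 0 := ⟨_, rfl⟩
  have hκ1 : ∀ y, y < J → κ' y = κ y := by
    intro y hy
    rw [hκ']
    exact if_pos hy
  have hκ2 : ∀ y, J ≤ y → κ' y = K := by
    intro y hy
    rw [hκ']
    exact if_neg (by omega)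
  have hx1 : ∀ y, y < J → x' y = x y := by
    intro y hy
    rw [hx']
    exact if_pos hy
  have hrunR : ∀ R', Run M R' ν κ' x' := by
    intro R'
    rw [hκ', hx']
    exact run_ext hrun hJ R' K hK
  obtain ⟨π, ε, hPri⟩ := hB M R ν κ' x' (hrunR R)
  have hcong : ∀ y < J, ∀ c, nn κ' x' ν c y = nn κ x ν c y := fun y hy c =>
    nn_congr ν (fun z hz => hκ1 z (by omega)) (fun z hz => hx1 z (by omega)) c
  -- the points `c ≥ K` give nothing before the row `J`
  have hbig : ∀ y < J, ∀ c, K ≤ c → nn κ' x' ν c y = 0 := by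
    intro y hy c hc
    rw [hcong y hy c]
    have h1 := mono_le hrun (show y ≤ J - 1 by omega) (by omega)
    have h2 : κ (J - 1) ≤ K := by omega
    rcases lt_or_ge (κ y) c with h3 | h3
    · exact nn_gt ν h3
    · have h4 : κ y = c := by omega
      rw [nn_eq ν h4]
      have h5 : ¬ 0 < x (J - 1) := by
        intro h
        rw [if_pos h] at hK
        omega
      exact x_zero hrun (show y ≤ J - 1 by omega) (by omega) (by omega) (by omega)
  -- the sum of the rows before `J`
  have hsumJ : ∀ y < J, ∑ c ∈ range K, nn κ' x' ν c y = ℓ y := by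
    intro y hy
    rw [← hSSe y hy]
    refine le_antisymm ?_ ?_
    · rw [Finset.sum_congr rfl fun c _ => hcong y hy c]
      exact sum_SS ν K y
    · unfold SS
      rw [Finset.sum_congr rfl fun c _ => (hcong y hy c).symm]
      calc ∑ c ∈ range (κ y + 1), nn κ' x' ν c y ≤ ∑ c ∈ range (K + (κ y + 1)), nn κ' x' ν c y :=
            Finset.sum_le_sum_of_subset (Finset.range_subset_range.2 (by omega))
        _ = ∑ c ∈ range K, nn κ' x' ν c y := by
            symm
            refine Finset.sum_subset (Finset.range_subset_range.2 (by omega)) ?_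
            intro c _ hc
            rw [Finset.mem_range] at hc
            exact hbig y hy c (by omega)
  have hcomp : ∀ c < K, ∑ y ∈ range (R + M), nn κ' x' ν c y = (ν c + 1).choose 2 := by
    intro c hc
    refine hC M (R + M) ν κ' x' (hrunR _) c J (by omega) ?_ (by omega)
    rw [hκ2 J le_rfl]
    exact hc
  have hcompJ : ∀ c < K, ∑ y ∈ range J, nn κ' x' ν c y ≤ (ν c + 1).choose 2 := by
    intro c hc
    rw [← hcomp c hc]
    exact Finset.sum_le_sum_of_subset (Finset.range_subset_range.2 (by omega))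
  have htot : ∑ y ∈ range J, ℓ y = ∑ c ∈ range K, ∑ y ∈ range J, nn κ' x' ν c y := by
    rw [Finset.sum_comm]
    exact Finset.sum_congr rfl fun y hy => (hsumJ y (Finset.mem_range.1 hy)).symm
  have htot2 : ∑ c ∈ range K, ∑ y ∈ range J, nn κ' x' ν c y ≤ ∑ c ∈ range K, (ν c + 1).choose 2 :=
    Finset.sum_le_sum fun c hc => hcompJ c (Finset.mem_range.1 hc)
  have hNK : N ≤ K := by
    by_contra h
    push Not at h
    have h1 : ∑ c ∈ range K, (ν c + 1).choose 2 < ∑ c ∈ range N, (ν c + 1).choose 2 := by
      refine Finset.sum_lt_sum_of_subset (Finset.range_subset_range.2 h.le) (i := K)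
        (Finset.mem_range.2 h) (by simp) (ch_pos hν1 K) fun j _ _ => Nat.zero_le _
    omega
  have hle : ∀ y < J, ∑ c ∈ range N, nn κ' x' ν c y ≤ ℓ y := by
    intro y hy
    rw [← hsumJ y hy]
    exact Finset.sum_le_sum_of_subset (Finset.range_subset_range.2 hNK)
  -- it remains: rows `≥ J`, and the rows `≥ R` get nothing
  have hfin : (∀ y, J ≤ y → y < R → ∑ c ∈ range N, nn κ' x' ν c y ≤ ℓ y) ∧
      (∀ c < N, ∑ y ∈ range R, nn κ' x' ν c y = (ν c + 1).choose 2) := by
    rcases le_or_gt N (κ (J - 1)) with hc1 | hc1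
    · have hNκ : ∀ y, J - 1 ≤ y → N ≤ κ' y := by
        intro y hy
        rcases lt_or_ge y J with h | h
        · have : y = J - 1 := by omega
          rw [hκ1 y h, this]
          exact hc1
        · rw [hκ2 y h]
          omega
      have hmono : ∀ y, κ' y ≤ κ' (y + 1) := fun y => (hrunR (y + 2)).mono y (by omega)
      have hs : ∀ t, J - 1 + t < R → ∑ c ∈ range N, nn κ' x' ν c (J - 1 + t) ≤ ℓ (J - 1 + t) := by
        intro t
        induction t with
        | zero =>
          intro _
          exact hle (J - 1) (by omega)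
        | succ t ih =>
          intro ht
          have h1 := ih (by omega)
          have h2 := sum_drop (x := x') ν (hNκ (J - 1 + t) (by omega)) (hmono (J - 1 + t))
          have h3 := hℓ (J - 1 + t) (by omega)
          rw [show J - 1 + (t + 1) = J - 1 + t + 1 by ring]
          omega
      refine ⟨?_, ?_⟩
      · intro y hy hyR
        have := hs (y - (J - 1)) (by omega)
        rwa [show J - 1 + (y - (J - 1)) = y by omega] at this
      · intro c hc
        rcases hend with h1 | h1
        · have hz : ∀ t, ∑ c ∈ range N, nn κ' x' ν c (R + t) = 0 := by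
            intro t
            induction t with
            | zero =>
              have h2 := hs (R - 1 - (J - 1)) (by omega)
              rw [show J - 1 + (R - 1 - (J - 1)) = R - 1 by omega] at h2
              have h3 := sum_drop (x := x') ν (hNκ (R - 1) (by omega)) (hmono (R - 1))
              rw [show R - 1 + 1 = R by omega] at h3
              rw [add_zero]
              omega
            | succ t ih =>
              have h3 := sum_drop (x := x') ν (hNκ (R + t) (by omega)) (hmono (R + t))
              rw [show R + (t + 1) = R + t + 1 by ring]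
              omega
          rw [← hcomp c (by omega)]
          refine Finset.sum_subset (Finset.range_subset_range.2 (by omega)) ?_
          intro y _ hy
          rw [Finset.mem_range] at hy
          have h2 := hz (y - R)
          rw [show R + (y - R) = y by omega, Finset.sum_eq_zero_iff] at h2
          exact h2 c (Finset.mem_range.2 hc)
        · refine hC M R ν κ' x' (hrunR _) c J (by omega) ?_ h1
          rw [hκ2 J le_rfl]
          omega
    · have hNe : N = K := by
        have : K ≤ κ (J - 1) + 1 := by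
          rw [hK]
          split_ifs <;> omega
        omega
      subst hNe
      have heq : ∑ c ∈ range N, ∑ y ∈ range J, nn κ' x' ν c y =
          ∑ c ∈ range N, (ν c + 1).choose 2 := le_antisymm htot2 (by rw [← htot]; exact hN)
      have heq2 : ∀ c ∈ range N, ∑ y ∈ range J, nn κ' x' ν c y = (ν c + 1).choose 2 :=
        (Finset.sum_eq_sum_iff_of_le fun c hc => hcompJ c (Finset.mem_range.1 hc)).1 heq
      have hz : ∀ c < N, ∀ y, J ≤ y → y < R + M → nn κ' x' ν c y = 0 := by
        intro c hc y hy hyR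
        have h1 := hcomp c hc
        rw [← heq2 c (Finset.mem_range.2 hc)] at h1
        have h2 : ∑ y ∈ range J, nn κ' x' ν c y + ∑ y ∈ Ico J (R + M), nn κ' x' ν c y =
            ∑ y ∈ range (R + M), nn κ' x' ν c y := Finset.sum_range_add_sum_Ico _ (by omega)
        have h3 : ∑ y ∈ Ico J (R + M), nn κ' x' ν c y = 0 := by omega
        rw [Finset.sum_eq_zero_iff] at h3
        exact h3 y (Finset.mem_Ico.2 ⟨hy, hyR⟩)
      refine ⟨?_, ?_⟩
      · intro y hy hyR
        rw [Finset.sum_eq_zero fun c hc => hz c (Finset.mem_range.1 hc) y hy (by omega)]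
        exact Nat.zero_le _
      · intro c hc
        rw [← heq2 c (Finset.mem_range.2 hc)]
        symm
        refine Finset.sum_subset (Finset.range_subset_range.2 hJR) ?_
        intro y hy hyJ
        rw [Finset.mem_range] at hy hyJ
        exact hz c hc y (by omega) (by omega)
  refine ⟨nn κ' x' ν, π, ε, hPri N, ?_, ?_⟩
  · intro y hy
    rcases lt_or_ge y J with h | h
    · exact hle y h
    · exact hfin.1 y h hy
  · rw [Finset.sum_comm]
    exact Finset.sum_congr rfl fun c hc => hfin.2 c (Finset.mem_range.1 hc)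

end Pool.Agent.Helper43.Gm.PkE2
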